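import Pool.Agent.Lib.MP_fc2a59_co.ALM.Defs

set_option autoImplicit false

/-!
# Project ALM, section P: method of moments, small subgraph conditioning, the limit constant

Pieces: p_bon, p_MM, p_poS, p_SSC, p_P4s, p_P4.
-/

namespace Pool.Agent.ALM

open Finset Filter Topology
open scoped Classical

/-- joint factorial moments converge -/
def MO (α : ℕ → Type) [∀ m, Fintype (α m)] (w : ∀ m, α m → ℝ) (N : ∀ m, ℕ → α m → ℕ)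
    (θ : ℕ → ℝ) : Prop :=
  ∀ (k : ℕ) (j : Fin k → ℕ), Tendsto
    (fun m => ∑ σ : α m, w m σ * ∏ i : Fin k, ((N m (i + 1) σ).descFactorial (j i) : ℝ))
    atTop (𝓝 (∏ i : Fin k, θ (i + 1) ^ j i))

/-- joint law converges to independent Poisson variables -/
def LAW (α : ℕ → Type) [∀ m, Fintype (α m)] (w : ∀ m, α m → ℝ) (N : ∀ m, ℕ → α m → ℕ)
    (θ : ℕ → ℝ) : Prop :=
  ∀ (k : ℕ) (x : Fin k → ℕ), Tendsto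
    (fun m => ∑ σ ∈ univ.filter (fun σ : α m => ∀ i : Fin k, N m (i + 1) σ = x i), w m σ)
    atTop (𝓝 (∏ i : Fin k, po (θ (i + 1)) (x i)))

/-- truncated inversion sum for the indicator of `n = x` -/
noncomputable def bo (L n x : ℕ) : ℝ :=
  ∑ l ∈ range L, (-1 : ℝ) ^ l * ((n.choose (x + l) : ℕ) : ℝ) * (((x + l).choose l : ℕ) : ℝ)

/-- BONFERRONI.  `|1_{n = x} - bo L n x| ≤ C(n, x+L) C(x+L, L)`.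

Proof.  `C(n, x+l) C(x+l, l) = C(n, x) C(n-x, l)` (`Nat.choose_mul`), so `bo L n x = C(n,x) ∑_{l<L} (-1)^l
C(n-x, l)`.  For `d = n - x` (if `n < x` everything is 0): if `d = 0` the sum is 1 for `L ≥ 1` (and for
`L = 0` the bound is `C(n,x) = 1`); if `d ≥ 1`, `∑_{l<L} (-1)^l C(d,l) = (-1)^(L-1) C(d-1, L-1)` for `L ≥ 1`
(`Int.alternating_sum_range_choose_of_ne`-type induction on `L`), and `C(d-1,L-1) ≤ C(d,L)` if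
`1 ≤ L ≤ d`, while for `L > d` both vanish.  For `L = 0` the sum is `0` and the claim is
`1_{n=x} ≤ C(n,x)`. -/
def S_bon : Prop := ∀ L n x : ℕ,
  |(if n = x then (1 : ℝ) else 0) - bo L n x| ≤
    ((n.choose (x + L) : ℕ) : ℝ) * (((x + L).choose L : ℕ) : ℝ)

/-- METHOD OF MOMENTS for several variables.

Proof.  Fix `k`, `x`.  For `L : ℕ` let `e_i = C(n_i, x_i+L) C(x_i+L, L)`, `n_i = N m (i+1) σ`.  By `S_bon`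
and telescoping `|∏ 1_{n_i = x_i} - ∏ bo L n_i x_i| ≤ ∑_i e_i ∏_{j > i} (1 + e_j) ≤ ∑_i e_i ∏_{j ≠ i} (1 + e_j)`
(`|bo L n x| ≤ 1 + e`; the indicators are `≤ 1`).  Multiply by `w m σ ≥ 0` and sum over `σ`.  All the
quantities are polynomials in binomial coefficients `C(n_i, a)` with at most one factor for every `i`, and
`E ∏ C(n_i, a_i) → ∏ θ_i^(a_i)/a_i!` by `MO` (`choose = descFactorial / factorial`).  So, `m → ∞`: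
`limsup |E ∏ 1 - E ∏ bo L| ≤ δ_L := ∑_i ε_i ∏_{j≠i} (1 + ε_j)`, `ε_i = θ_i^(x_i+L)/(x_i+L)! C(x_i+L,L) =
θ_i^(x_i) θ_i^L/(x_i! L!)`, and `E ∏ bo L n_i x_i → ∏_i ∑_{l<L} (-1)^l θ_i^(x_i+l)/(x_i! l!) =: P_L`.  As
`L → ∞`: `δ_L → 0`, `P_L → ∏ po θ_i x_i`.  Conclude with an `ε/3` argument. -/
def S_MM : Prop := ∀ (α : ℕ → Type) [∀ m, Fintype (α m)] (w : ∀ m, α m → ℝ) (N : ∀ m, ℕ → α m → ℕ)
  (θ : ℕ → ℝ), (∀ m σ, 0 ≤ w m σ) → (∀ i, 1 ≤ i → 0 ≤ θ i) → MO α w N θ → LAW α w N θ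

/-- SUMS OF SQUARES OF POISSON WEIGHTS.

Proof.  `po θ' x^2/po θ x = exp(θ - 2θ') (θ'^2/θ)^x/x!`, sum `= exp(θ - 2θ' + θ'^2/θ) = exp((θ'-θ)^2/θ)`
(`NormedSpace.expSeries`/`Real.hasSum_exp`-type lemma).  `∑ po θ x = 1`. -/
def S_poS : Prop := ∀ θ θ' : ℝ, 0 < θ → 0 ≤ θ' →
  HasSum (fun x : ℕ => po θ' x ^ 2 / po θ x) (Real.exp ((θ' - θ) ^ 2 / θ)) ∧ HasSum (fun x : ℕ => po θ' x) 1

/-- SMALL SUBGRAPH CONDITIONING (Robinson-Wormald), for the event `N_1 = N_2 = 0`.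

Proof.  Write `P(E) = ∑_{σ ∈ E} w`, `P*(E) = ∑_{σ ∈ E} w Z`.  Fix `k ≥ 3` and `K`, let
`B = {x : Fin k → ℕ | all x_i ≤ K}` (`Fintype.piFinset`), `p(x) = ∏ po θ_i x_i > 0`, `p'(x) = ∏ po θ'_i x_i`
(`θ_i` for `θ (i+1)`), and let `τ > 0`, `G = {x ∈ B | x_1 = x_2 = 0, p'(x) ≥ τ p(x)}`.
(1) For every `x`, on `E_x = {N = x}`: let `a = P(E_x)`, `b = P*(E_x)`, `z = ∑_{E_x} w Z^2`.  Cauchy-Schwarz
gives `b^2 ≤ a z` and `b^2 ≤ z P(E_x, Z ≠ 0) = z (a - P(E_x, Z = 0))`.  If `b > 0` (then `a, z > 0`):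
`P(E_x, Z = 0) ≤ (a z - b^2)/z ≤ (a z - b^2) a/b^2 = (a/b)^2 (z - b^2/a)`.
(2) Sum over `x ∈ G`; `a_x → p(x)`, `b_x → p'(x) ≥ τ p(x) > 0` by `LAW`, so eventually `a/b ≤ 2/τ` on `G`,
and `z - b^2/a ≥ 0` for all `x ∈ B` with `a > 0`:
`P(Z = 0, N ∈ G) ≤ (4/τ^2) (∑_σ w Z^2 - ∑_{x ∈ B} b_x^2/a_x)`,
limsup `≤ (4/τ^2) (R - ∑_{x ∈ B} p'(x)^2/p(x))`.
(3) `P(N_1 = N_2 = 0, N ∉ G) ≤ P(N ∉ B) + ∑_{x ∈ B, x_1=x_2=0, x ∉ G} P(E_x)`; limsup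
`≤ (1 - ∑_{x ∈ B} p(x)) + ∑_{x ∈ B, x_1=x_2=0, p'(x) < τ p(x)} p(x)`, (`P(all) → 1` by `LAW` with `k = 0`), and
the last sum is `≤ τ ∑_{x_1=x_2=0} p(x)^2/p'(x) ≤ τ exp(θ'_1 + θ'_2) exp(∑_{i=3}^{k} (θ_i-θ'_i)^2/θ'_i)
≤ τ exp(θ'_1 + θ'_2 + C)` (for `i = 1,2` the factor is `po θ_i 0^2/po θ'_i 0 = exp(-2θ_i + θ'_i)`; for
`i ≥ 3` use `S_poS`, finite partial sums are below the infinite sum since the terms are `≥ 0`).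
(4) Given `ε`: choose `τ` with `τ exp(θ'_1+θ'_2+C) ≤ ε`.  Then `k ≥ 3` such that
`exp(∑_{i ≤ k} (θ'_i-θ_i)^2/θ_i) ≥ R - ε τ^2/16`, then `K` such that
`∑_{x ∈ B} p'(x)^2/p(x) = ∏_i ∑_{x_i ≤ K} po θ'_i x_i^2/po θ_i x_i ≥ R - ε τ^2/8` (`S_poS`,
`Finset.prod_univ_sum`) and `1 - ∑_{x∈B} p(x) ≤ ε`.  Then `limsup P(Z = 0, N_1 = N_2 = 0) ≤ 4 ε`. -/
def S_SSC : Prop := ∀ (α : ℕ → Type) [∀ m, Fintype (α m)] (w Z : ∀ m, α m → ℝ)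
  (N : ∀ m, ℕ → α m → ℕ) (θ θ' : ℕ → ℝ) (R C : ℝ),
  (∀ m σ, 0 ≤ w m σ) → (∀ m σ, 0 ≤ Z m σ) →
  (∀ i, 1 ≤ i → 0 < θ i) → (∀ i, 1 ≤ i → 0 ≤ θ' i) → (∀ i, 3 ≤ i → 0 < θ' i) →
  LAW α w N θ → LAW α (fun m σ => w m σ * Z m σ) N θ' →
  (∀ ε : ℝ, 0 < ε → ∀ᶠ m in atTop, ∑ σ : α m, w m σ * Z m σ ^ 2 ≤ R + ε) →
  Tendsto (fun k : ℕ => Real.exp (∑ i : Fin k, (θ' (i + 1) - θ (i + 1)) ^ 2 / θ (i + 1))) atTop (𝓝 R) →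
  (∀ k : ℕ, ∑ i ∈ Ico 3 k, (θ i - θ' i) ^ 2 / θ' i ≤ C) →
  Tendsto (fun m => ∑ σ ∈ univ.filter (fun σ : α m => Z m σ = 0 ∧ N m 1 σ = 0 ∧ N m 2 σ = 0), w m σ)
    atTop (𝓝 0)

/-- THE SERIES.  `∑_{i ≥ 1} (mu i - lam i)^2/lam i = log (432/(11 √7))`.

Proof.  `(mu i - lam i)^2/lam i = (2^-i + s_i - 4)^2 2^-i/(2i)`, `s_i = sq i`.  Let `w = (3 + i√7)/4 : ℂ`,
`|w| = 1`, `w + wbar = 3/2`, `w wbar = 1`, so `s_i = w^i + wbar^i` (induction), `s_i^2 = s_(2i) + 2`, and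
`(2^-i + s_i - 4)^2 = 4^-i + s_(2i) + 18 + 2 * 2^-i s_i - 8 * 2^-i - 8 s_i`.  Using
`∑_{i≥1} z^i/i = -log(1-z)` (`Complex.hasSum_taylorSeries_neg_log`, real version for real `z`) and
`∑ (z^i + zbar^i)/i = -log |1-z|^2`: twice the sum is
`-log(1 - 1/8) - log|1 - w^2/2|^2 - 18 log(1/2) - 2 log|1 - w/4|^2 + 8 log(1 - 1/4) + 8 log|1 - w/2|^2`, with
`|1 - w^2/2|^2 = 1 - s_2/2 + 1/4 = 9/8` (`s_2 = 1/4`), `|1 - w/4|^2 = 1 - 3/8 + 1/16 = 11/16`,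
`|1 - w/2|^2 = 1 - 3/4 + 1/4 = 1/2`.  So the square of the exponential is
`(8/7)(8/9) 2^18 (16/11)^2 (3/4)^8 (1/2)^8 = 432^2/(121 * 7)`.  (Check: `8*8*2^18*2^8*3^8/(7*9*121*2^16*2^8)
= 2^8 3^6/(7*121) = 186624/847`.) -/
def S_P4s : Prop :=
  HasSum (fun i : ℕ => (mu (i + 1) - lam (i + 1)) ^ 2 / lam (i + 1)) (Real.log Rinf)

/-- THE CONSTANTS.

Proof.  `lam i > 0`.  `|sq i| ≤ 2` (`sq i = w^i + wbar^i`, `|w| = 1`; or: `sq n^2 + sq (n+1)^2 -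
(3/2) sq n sq (n+1) = 7/4` is invariant, which gives `sq n^2 (1 - 9/16) ≤ 7/4`, `sq n^2 ≤ 4`).
`mu 1 = 0`, `mu 2 = 1/8`, for `i ≥ 3`: `2^i + 2^-i + sq i - 4 ≥ 2^i - 6 + 2^-i ≥ 2 > 0`, more precisely
`≥ 2^i/4`.  Limit: `S_P4s` (partial sums over `Fin k`, `Real.exp_log`, `Rinf > 0`).  Last claim:
`(lam i - mu i)^2/mu i = (2^-i + sq i - 4)^2/(2i (2^i + 2^-i + sq i - 4)) ≤ 49 * 4/2^i`, summable. -/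
def S_P4 : Prop :=
  (∀ i : ℕ, 1 ≤ i → 0 < lam i) ∧ (∀ i : ℕ, 1 ≤ i → 0 ≤ mu i) ∧ (∀ i : ℕ, 3 ≤ i → 0 < mu i) ∧
  Tendsto (fun k : ℕ => Real.exp (∑ i : Fin k, (mu (i + 1) - lam (i + 1)) ^ 2 / lam (i + 1))) atTop
    (𝓝 Rinf) ∧
  ∃ C : ℝ, ∀ k : ℕ, ∑ i ∈ Ico 3 k, (lam i - mu i) ^ 2 / mu i ≤ C

end Pool.Agent.ALM
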