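import Pool.Agent.Lib.MP_fc2a59_co.ALM.P.Stm

set_option autoImplicit false

namespace Pool.Agent.ALM

open Finset
open scoped Classical

namespace MMX

open Filter Topology

/-- product comparison -/
lemma prod_cmp {ι : Type} (s : Finset ι) (a b e : ι → ℝ) (ha : ∀ i, |a i| ≤ 1)
    (hab : ∀ i, |a i - b i| ≤ e i) :
    |∏ i ∈ s, a i - ∏ i ∈ s, b i| ≤ ∏ i ∈ s, (1 + e i) - 1 := by
  have he : ∀ i, 0 ≤ e i := fun i => le_trans (abs_nonneg _) (hab i)
  have hb : ∀ i, |b i| ≤ 1 + e i := by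
    intro i
    have h1 := hab i
    have h2 := ha i
    have h3 : |b i| ≤ |a i| + |a i - b i| := by
      have : b i = a i - (a i - b i) := by ring
      calc |b i| = |a i - (a i - b i)| := by rw [← this]
        _ ≤ |a i| + |a i - b i| := abs_sub _ _
    linarith
  induction s using Finset.induction_on with
  | empty => simp
  | insert i s hi ih =>
    rw [Finset.prod_insert hi, Finset.prod_insert hi, Finset.prod_insert hi]
    have h1 : |∏ j ∈ s, b j| ≤ ∏ j ∈ s, (1 + e j) := by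
      rw [Finset.abs_prod]
      exact Finset.prod_le_prod (fun j _ => abs_nonneg _) (fun j _ => hb j)
    have h2 : a i * ∏ j ∈ s, a j - b i * ∏ j ∈ s, b j
        = a i * (∏ j ∈ s, a j - ∏ j ∈ s, b j) + (a i - b i) * ∏ j ∈ s, b j := by ring
    rw [h2]
    calc |a i * (∏ j ∈ s, a j - ∏ j ∈ s, b j) + (a i - b i) * ∏ j ∈ s, b j|
        ≤ |a i * (∏ j ∈ s, a j - ∏ j ∈ s, b j)| + |(a i - b i) * ∏ j ∈ s, b j| := abs_add_le _ _
      _ = |a i| * |∏ j ∈ s, a j - ∏ j ∈ s, b j| + |a i - b i| * |∏ j ∈ s, b j| := by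
          rw [abs_mul, abs_mul]
      _ ≤ 1 * (∏ j ∈ s, (1 + e j) - 1) + e i * ∏ j ∈ s, (1 + e j) := by
          apply add_le_add
          · exact mul_le_mul (ha i) ih (abs_nonneg _) zero_le_one
          · exact mul_le_mul (hab i) h1 (abs_nonneg _) (he i)
      _ = (1 + e i) * ∏ j ∈ s, (1 + e j) - 1 := by ring

variable {α : ℕ → Type} [∀ m, Fintype (α m)] {w : ∀ m, α m → ℝ} {N : ∀ m, ℕ → α m → ℕ} {θ : ℕ → ℝ}

/-- binomial moments -/
lemma bin_mom (hM : MO α w N θ) (k : ℕ) (d : Fin k → ℕ) :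
    Tendsto (fun m => ∑ σ : α m, w m σ * ∏ i : Fin k, (((N m (i + 1) σ).choose (d i) : ℕ) : ℝ))
      atTop (𝓝 (∏ i : Fin k, θ (i + 1) ^ d i / ((d i).factorial : ℝ))) := by
  have h := (hM k d).mul_const (∏ i : Fin k, ((d i).factorial : ℝ)⁻¹)
  have e1 : (∏ i : Fin k, θ (i + 1) ^ d i) * (∏ i : Fin k, ((d i).factorial : ℝ)⁻¹)
      = ∏ i : Fin k, θ (i + 1) ^ d i / ((d i).factorial : ℝ) := by
    rw [← Finset.prod_mul_distrib]
    rfl
  rw [e1] at h
  refine h.congr (fun m => ?_)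
  rw [Finset.sum_mul]
  refine Finset.sum_congr rfl (fun σ _ => ?_)
  rw [mul_assoc, ← Finset.prod_mul_distrib]
  congr 1
  refine Finset.prod_congr rfl (fun i _ => ?_)
  rw [Nat.descFactorial_eq_factorial_mul_choose]
  have hf : ((d i).factorial : ℝ) ≠ 0 := by positivity
  push_cast
  field_simp

/-- moments of products of finite combinations of binomials -/
lemma comb_mom (hM : MO α w N θ) (k M : ℕ) (c : Fin k → ℕ → ℝ) (d : Fin k → ℕ → ℕ) :
    Tendsto (fun m => ∑ σ : α m, w m σ *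
        ∏ i : Fin k, ∑ l ∈ range M, c i l * (((N m (i + 1) σ).choose (d i l) : ℕ) : ℝ))
      atTop (𝓝 (∏ i : Fin k, ∑ l ∈ range M, c i l * (θ (i + 1) ^ d i l / ((d i l).factorial : ℝ)))) := by
  have h : Tendsto (fun m => ∑ p ∈ Fintype.piFinset (fun _ : Fin k => range M),
      (∏ i : Fin k, c i (p i)) *
        ∑ σ : α m, w m σ * ∏ i : Fin k, (((N m (i + 1) σ).choose (d i (p i)) : ℕ) : ℝ)) atTop
      (𝓝 (∑ p ∈ Fintype.piFinset (fun _ : Fin k => range M),
        (∏ i : Fin k, c i (p i)) * ∏ i : Fin k, θ (i + 1) ^ d i (p i) / ((d i (p i)).factorial : ℝ))) := by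
    apply tendsto_finsetSum
    intro p _
    exact (bin_mom hM k (fun i => d i (p i))).const_mul _
  have e1 : (∏ i : Fin k, ∑ l ∈ range M, c i l * (θ (i + 1) ^ d i l / ((d i l).factorial : ℝ)))
      = ∑ p ∈ Fintype.piFinset (fun _ : Fin k => range M),
        (∏ i : Fin k, c i (p i)) * ∏ i : Fin k, θ (i + 1) ^ d i (p i) / ((d i (p i)).factorial : ℝ) := by
    rw [Finset.prod_univ_sum]
    refine Finset.sum_congr rfl (fun p _ => ?_)
    rw [← Finset.prod_mul_distrib]
  rw [e1]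
  refine h.congr (fun m => ?_)
  have e2 : ∀ σ : α m, w m σ *
      ∏ i : Fin k, ∑ l ∈ range M, c i l * (((N m (i + 1) σ).choose (d i l) : ℕ) : ℝ)
      = ∑ p ∈ Fintype.piFinset (fun _ : Fin k => range M), (∏ i : Fin k, c i (p i)) *
        (w m σ * ∏ i : Fin k, (((N m (i + 1) σ).choose (d i (p i)) : ℕ) : ℝ)) := by
    intro σ
    rw [Finset.prod_univ_sum, Finset.mul_sum]
    refine Finset.sum_congr rfl (fun p _ => ?_)
    rw [Finset.prod_mul_distrib]
    ring
  simp only [e2]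
  rw [Finset.sum_comm]
  refine Finset.sum_congr rfl (fun p _ => ?_)
  rw [Finset.mul_sum]

/-- limit in `L` of the main sum -/
lemma lim_bo (t : ℝ) (x : ℕ) :
    Tendsto (fun L : ℕ => ∑ l ∈ range L, ((-1 : ℝ) ^ l * (((x + l).choose l : ℕ) : ℝ)) *
      (t ^ (x + l) / ((x + l).factorial : ℝ))) atTop (𝓝 (po t x)) := by
  have h := (NormedSpace.expSeries_div_hasSum_exp (-t)).mul_left (t ^ x / (x.factorial : ℝ))
  have e : (t ^ x / (x.factorial : ℝ)) * NormedSpace.exp (-t) = po t x := by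
    rw [← Real.exp_eq_exp_ℝ]
    unfold po
    ring
  rw [e] at h
  refine h.tendsto_sum_nat.congr (fun L => ?_)
  refine Finset.sum_congr rfl (fun l _ => ?_)
  have h1 : (x + l).choose l * l.factorial * x.factorial = (x + l).factorial := by
    have := Nat.add_choose_mul_factorial_mul_factorial x l
    rw [← this]
    ring
  have h2 : (((x + l).choose l : ℕ) : ℝ) * (l.factorial : ℝ) * (x.factorial : ℝ)
      = ((x + l).factorial : ℝ) := by exact_mod_cast h1
  have hx : (x.factorial : ℝ) ≠ 0 := by positivity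
  have hl : (l.factorial : ℝ) ≠ 0 := by positivity
  have hxl : ((x + l).factorial : ℝ) ≠ 0 := by positivity
  have h3 : (-t) ^ l = (-1) ^ l * t ^ l := by rw [neg_pow]
  rw [h3, pow_add]
  rw [mul_div_assoc', mul_div_assoc', div_mul_eq_mul_div, div_div, div_eq_div_iff (by positivity) hxl, ← h2]
  ring

/-- limit in `L` of the error term -/
lemma lim_er (t : ℝ) (x : ℕ) :
    Tendsto (fun L : ℕ => (((x + L).choose L : ℕ) : ℝ) * (t ^ (x + L) / ((x + L).factorial : ℝ)))
      atTop (𝓝 0) := by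
  have h := (FloorSemiring.tendsto_pow_div_factorial_atTop t).const_mul (t ^ x / (x.factorial : ℝ))
  rw [mul_zero] at h
  refine h.congr (fun l => ?_)
  have h1 : (x + l).choose l * l.factorial * x.factorial = (x + l).factorial := by
    have := Nat.add_choose_mul_factorial_mul_factorial x l
    rw [← this]
    ring
  have h2 : (((x + l).choose l : ℕ) : ℝ) * (l.factorial : ℝ) * (x.factorial : ℝ)
      = ((x + l).factorial : ℝ) := by exact_mod_cast h1
  have hx : (x.factorial : ℝ) ≠ 0 := by positivity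
  have hl : (l.factorial : ℝ) ≠ 0 := by positivity
  have hxl : ((x + l).factorial : ℝ) ≠ 0 := by positivity
  rw [pow_add]
  rw [mul_div_assoc', mul_div_assoc', div_mul_eq_mul_div, div_div, div_eq_div_iff (by positivity) hxl, ← h2]
  ring

end MMX

open Filter Topology MMX in
theorem p_MM (h1 : S_bon) : S_MM := by
  intro α _ w N θ hw hθ hM k x
  rw [Metric.tendsto_atTop]
  intro ε hε
  -- the limit in `L`
  have hP : Tendsto (fun L : ℕ => ∏ i : Fin k, ∑ l ∈ range L,
      ((-1 : ℝ) ^ l * (((x i + l).choose l : ℕ) : ℝ)) *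
        (θ (i + 1) ^ (x i + l) / ((x i + l).factorial : ℝ))) atTop
      (𝓝 (∏ i : Fin k, po (θ (i + 1)) (x i))) :=
    tendsto_finsetProd _ (fun i _ => lim_bo (θ (i + 1)) (x i))
  have hE : Tendsto (fun L : ℕ => ∏ i : Fin k,
      (1 + (((x i + L).choose L : ℕ) : ℝ) * (θ (i + 1) ^ (x i + L) / ((x i + L).factorial : ℝ)))) atTop
      (𝓝 1) := by
    have h := tendsto_finsetProd (univ : Finset (Fin k))
      (fun i _ => (lim_er (θ (i + 1)) (x i)).const_add 1)
    simpa using h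
  have hP' := (Metric.tendsto_atTop.1 hP) (ε / 4) (by positivity)
  have hE' := (Metric.tendsto_atTop.1 hE) (ε / 4) (by positivity)
  obtain ⟨L1, hL1⟩ := hP'
  obtain ⟨L2, hL2⟩ := hE'
  set L := max L1 L2 with hL
  have hA := hL1 L (le_max_left _ _)
  have hB := hL2 L (le_max_right _ _)
  -- the limits in `m`
  have m1 := comb_mom hM k L (fun i l => (-1 : ℝ) ^ l * (((x i + l).choose l : ℕ) : ℝ))
    (fun i l => x i + l)
  have m2 := comb_mom hM k 2 (fun i l => if l = 0 then 1 else (((x i + L).choose L : ℕ) : ℝ))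
    (fun i l => if l = 0 then 0 else x i + L)
  have m3 := bin_mom hM k (fun _ => 0)
  have e3 : (∏ i : Fin k, θ (i + 1) ^ 0 / ((Nat.factorial 0 : ℕ) : ℝ)) = 1 := by simp
  rw [e3] at m3
  have e2 : (∏ i : Fin k, ∑ l ∈ range 2, (if l = 0 then (1 : ℝ) else (((x i + L).choose L : ℕ) : ℝ)) *
      (θ (i + 1) ^ (if l = 0 then 0 else x i + L) / (((if l = 0 then 0 else x i + L).factorial : ℕ) : ℝ)))
      = ∏ i : Fin k,
      (1 + (((x i + L).choose L : ℕ) : ℝ) * (θ (i + 1) ^ (x i + L) / ((x i + L).factorial : ℝ))) := by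
    refine Finset.prod_congr rfl (fun i _ => ?_)
    rw [Finset.sum_range_succ, Finset.sum_range_succ]
    simp
  rw [e2] at m2
  obtain ⟨M1, hM1⟩ := (Metric.tendsto_atTop.1 m1) (ε / 8) (by positivity)
  obtain ⟨M2, hM2⟩ := (Metric.tendsto_atTop.1 m2) (ε / 8) (by positivity)
  obtain ⟨M3, hM3⟩ := (Metric.tendsto_atTop.1 m3) (ε / 8) (by positivity)
  refine ⟨max M1 (max M2 M3), fun m hm => ?_⟩
  have hm1 := hM1 m (le_trans (le_max_left _ _) hm)
  have hm2 := hM2 m (le_trans (le_trans (le_max_left _ _) (le_max_right _ _)) hm)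
  have hm3 := hM3 m (le_trans (le_trans (le_max_right _ _) (le_max_right _ _)) hm)
  -- rewrite the sum with indicators
  have r1 : ∑ σ ∈ univ.filter (fun σ : α m => ∀ i : Fin k, N m (i + 1) σ = x i), w m σ
      = ∑ σ : α m, w m σ * ∏ i : Fin k, (if N m (i + 1) σ = x i then (1 : ℝ) else 0) := by
    rw [Finset.sum_filter]
    refine Finset.sum_congr rfl (fun σ _ => ?_)
    rw [Finset.prod_boole]
    by_cases h : ∀ i : Fin k, N m (i + 1) σ = x i
    · simp [h]
    · simp only [Finset.mem_univ, forall_true_left]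
      rw [if_neg h, if_neg h, mul_zero]
  -- comparison
  have r2 : |∑ σ : α m, w m σ * ∏ i : Fin k, (if N m (i + 1) σ = x i then (1 : ℝ) else 0)
      - ∑ σ : α m, w m σ * ∏ i : Fin k, ∑ l ∈ range L,
        ((-1 : ℝ) ^ l * (((x i + l).choose l : ℕ) : ℝ)) * (((N m (i + 1) σ).choose (x i + l) : ℕ) : ℝ)|
      ≤ ∑ σ : α m, w m σ * ∏ i : Fin k, ∑ l ∈ range 2,
          (if l = 0 then (1 : ℝ) else (((x i + L).choose L : ℕ) : ℝ)) *
            (((N m (i + 1) σ).choose (if l = 0 then 0 else x i + L) : ℕ) : ℝ)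
        - ∑ σ : α m, w m σ * ∏ _i : Fin k, (((N m (_i + 1) σ).choose 0 : ℕ) : ℝ) := by
    rw [← Finset.sum_sub_distrib, ← Finset.sum_sub_distrib]
    refine le_trans (Finset.abs_sum_le_sum_abs _ _) (Finset.sum_le_sum (fun σ _ => ?_))
    rw [← mul_sub, ← mul_sub, abs_mul, abs_of_nonneg (hw m σ)]
    refine mul_le_mul_of_nonneg_left ?_ (hw m σ)
    have h := prod_cmp (univ : Finset (Fin k))
      (fun i => if N m (i + 1) σ = x i then (1 : ℝ) else 0)
      (fun i => bo L (N m (i + 1) σ) (x i))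
      (fun i => (((N m (i + 1) σ).choose (x i + L) : ℕ) : ℝ) * (((x i + L).choose L : ℕ) : ℝ))
      (fun i => by
        by_cases h : N m (i + 1) σ = x i
        · simp [h]
        · simp [h])
      (fun i => h1 L _ _)
    have f1 : (∏ i : Fin k, ∑ l ∈ range L,
        ((-1 : ℝ) ^ l * (((x i + l).choose l : ℕ) : ℝ)) * (((N m (i + 1) σ).choose (x i + l) : ℕ) : ℝ))
        = ∏ i : Fin k, bo L (N m (i + 1) σ) (x i) := by
      refine Finset.prod_congr rfl (fun i _ => ?_)
      unfold bo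
      refine Finset.sum_congr rfl (fun l _ => ?_)
      ring
    have f2 : (∏ i : Fin k, ∑ l ∈ range 2,
          (if l = 0 then (1 : ℝ) else (((x i + L).choose L : ℕ) : ℝ)) *
            (((N m (i + 1) σ).choose (if l = 0 then 0 else x i + L) : ℕ) : ℝ))
        = ∏ i : Fin k, (1 + (((N m (i + 1) σ).choose (x i + L) : ℕ) : ℝ) *
            (((x i + L).choose L : ℕ) : ℝ)) := by
      refine Finset.prod_congr rfl (fun i _ => ?_)
      rw [Finset.sum_range_succ, Finset.sum_range_succ]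
      simp
      ring
    have f3 : (∏ _i : Fin k, (((N m (_i + 1) σ).choose 0 : ℕ) : ℝ)) = 1 := by simp
    rw [f1, f2, f3]
    exact h
  rw [Real.dist_eq] at hm1 hm2 hm3 hA hB ⊢
  rw [r1]
  rw [abs_lt] at hm1 hm2 hm3 hA hB ⊢
  rw [abs_le] at r2
  constructor <;> linarith [r2.1, r2.2, hm1.1, hm1.2, hm2.1, hm2.2, hm3.1, hm3.2, hA.1, hA.2, hB.1, hB.2]

end Pool.Agent.ALM
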