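import Pool.Agent.Lib.MP_fc2a59_co.ALM.P.Stm

set_option autoImplicit false

namespace Pool.Agent.ALM

open Finset Filter Topology
open scoped Classical

namespace P4X

theorem sq_inv (n : ℕ) : sq n ^ 2 + sq (n + 1) ^ 2 - 3 / 2 * sq n * sq (n + 1) = 7 / 4 := by
  induction n with
  | zero => simp only [sq]; norm_num
  | succ n ih =>
    have : sq (n + 1 + 1) = 3 / 2 * sq (n + 1) - sq n := rfl
    rw [this]
    nlinarith [ih]

theorem sq_le (n : ℕ) : |sq n| ≤ 2 := by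
  have h := sq_inv n
  rw [abs_le]
  constructor <;> nlinarith [sq_nonneg (sq (n + 1) - 3 / 4 * sq n)]

/-- the numerator `2^i + 2^-i + s_i - 4` is at least `2^i / 4` for `i ≥ 3` -/
theorem den_ge (i : ℕ) (hi : 3 ≤ i) :
    (2 : ℝ) ^ i / 4 ≤ 2 ^ i + (1 / 2) ^ i + sq i - 4 := by
  have h := abs_le.mp (sq_le i)
  have h8 : (8 : ℝ) ≤ 2 ^ i := by
    calc (8 : ℝ) = 2 ^ 3 := by norm_num
      _ ≤ 2 ^ i := pow_le_pow_right₀ (by norm_num) hi
  have hp : (0 : ℝ) < (1 / 2) ^ i := by positivity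
  linarith [h.1]

theorem mu_pos (i : ℕ) (hi : 3 ≤ i) : 0 < mu i := by
  have h := den_ge i hi
  have h2 : (0 : ℝ) < 2 ^ i / 4 := by positivity
  have hi' : (0 : ℝ) < i := by exact_mod_cast (by omega : 0 < i)
  unfold mu
  apply div_pos (by linarith) (by positivity)

theorem term_le (i : ℕ) (hi : 3 ≤ i) : (lam i - mu i) ^ 2 / mu i ≤ 196 * (1 / 2 : ℝ) ^ i := by
  have h := den_ge i hi
  have hs := abs_le.mp (sq_le i)
  have h2 : (0 : ℝ) < 2 ^ i / 4 := by positivity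
  have hi' : (1 : ℝ) ≤ i := by exact_mod_cast (by omega : 1 ≤ i)
  have hx : (0 : ℝ) < (1 / 2) ^ i := by positivity
  have hx1 : (1 / 2 : ℝ) ^ i ≤ 1 := pow_le_one₀ (by norm_num) (by norm_num)
  set D : ℝ := 2 ^ i + (1 / 2) ^ i + sq i - 4 with hD
  have hDpos : 0 < D := by linarith
  have e1 : lam i - mu i = (4 - sq i - (1 / 2) ^ i) / (2 * i) := by
    unfold lam mu
    rw [← sub_div]; congr 1; ring
  have e2 : mu i = D / (2 * i) := rfl
  have e3 : (lam i - mu i) ^ 2 / mu i = (4 - sq i - (1 / 2) ^ i) ^ 2 / (2 * i * D) := by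
    rw [e1, e2]
    have : (i : ℝ) ≠ 0 := by linarith
    field_simp
  rw [e3, div_le_iff₀ (by positivity)]
  have hb : (4 - sq i - (1 / 2) ^ i) ^ 2 ≤ 49 := by
    have a1 : 4 - sq i - (1 / 2 : ℝ) ^ i ≤ 6 := by linarith [hs.1]
    have a2 : -(7 : ℝ) ≤ 4 - sq i - (1 / 2 : ℝ) ^ i := by linarith [hs.2]
    nlinarith
  have hq : (1 / 2 : ℝ) ^ i * 2 ^ i = 1 := by rw [← mul_pow]; norm_num
  have hc : (1 / 4 : ℝ) ≤ (1 / 2) ^ i * D := by
    have := mul_le_mul_of_nonneg_left h hx.le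
    calc (1 / 4 : ℝ) = (1 / 2) ^ i * (2 ^ i / 4) := by rw [← mul_div_assoc, hq]
      _ ≤ _ := this
  have hc2 : (1 / 4 : ℝ) ≤ (1 / 2) ^ i * D * i := by nlinarith
  calc (4 - sq i - (1 / 2) ^ i) ^ 2 ≤ 49 := hb
    _ ≤ 196 * 2 * ((1 / 2) ^ i * D * i) := by linarith
    _ = 196 * (1 / 2) ^ i * (2 * i * D) := by ring

end P4X

open P4X in
theorem p_P4 (h1 : S_P4s) : S_P4 := by
  refine ⟨?_, ?_, mu_pos, ?_, 392, ?_⟩
  · intro i hi
    have hi' : (0 : ℝ) < i := by exact_mod_cast hi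
    unfold lam; positivity
  · intro i hi
    rcases Nat.lt_or_ge i 3 with h | h
    · interval_cases i
      · unfold mu; simp only [sq]; norm_num
      · unfold mu; simp only [sq]; norm_num
    · exact (mu_pos i h).le
  · have hR : (0 : ℝ) < Rinf := by
      unfold Rinf
      have s7 : (0 : ℝ) < Real.sqrt 7 := Real.sqrt_pos.mpr (by norm_num)
      positivity
    have h2 := h1.tendsto_sum_nat
    have h3 := (Real.continuous_exp.tendsto (Real.log Rinf)).comp h2
    rw [Real.exp_log hR] at h3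
    refine h3.congr fun k => ?_
    simp only [Function.comp]
    rw [Finset.sum_range]
  · intro k
    calc ∑ i ∈ Ico 3 k, (lam i - mu i) ^ 2 / mu i
        ≤ ∑ i ∈ Ico 3 k, 196 * (1 / 2 : ℝ) ^ i :=
          sum_le_sum fun i hi => term_le i (mem_Ico.mp hi).1
      _ ≤ ∑ i ∈ range k, 196 * (1 / 2 : ℝ) ^ i := by
          apply sum_le_sum_of_subset_of_nonneg
          · intro i hi; exact mem_range.mpr (mem_Ico.mp hi).2
          · intro i _ _; positivity
      _ = 196 * ∑ i ∈ range k, (1 / 2 : ℝ) ^ i := by rw [mul_sum]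
      _ ≤ 392 := by
          have := sum_geometric_two_le k
          linarith

end Pool.Agent.ALM
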