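import Pool.Agent.Lib.MP_fc2a59_co.ALM.P.Stm

set_option autoImplicit false

namespace Pool.Agent.ALM

open Finset
open scoped Classical

namespace SSCX

open Filter Topology

/-- second moment inequality on one cell -/
lemma key {X : Type} (s : Finset X) (w Z : X → ℝ) (hw : ∀ x, 0 ≤ w x) :
    (∑ x ∈ s.filter (fun x => Z x = 0), w x) * ((∑ x ∈ s, w x * Z x) / (∑ x ∈ s, w x)) ^ 2 ≤
      (∑ x ∈ s, w x * Z x ^ 2) - (∑ x ∈ s, w x * Z x) ^ 2 / (∑ x ∈ s, w x) := by
  set a := ∑ x ∈ s, w x with ha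
  set b := ∑ x ∈ s, w x * Z x with hb
  by_cases h0 : a = 0
  · rw [h0]
    simp only [div_zero, ne_eq, OfNat.ofNat_ne_zero, not_false_eq_true, zero_pow, mul_zero, sub_zero]
    exact Finset.sum_nonneg (fun x _ => mul_nonneg (hw x) (sq_nonneg _))
  · have e1 : (∑ x ∈ s, w x * Z x ^ 2) - b ^ 2 / a = ∑ x ∈ s, w x * (Z x - b / a) ^ 2 := by
      have h1 : ∀ x, w x * (Z x - b / a) ^ 2 = w x * Z x ^ 2 - 2 * (b / a) * (w x * Z x)
          + (b / a) ^ 2 * w x := by intro x; ring
      simp only [h1]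
      rw [Finset.sum_add_distrib, Finset.sum_sub_distrib, ← Finset.mul_sum, ← Finset.mul_sum, ← ha, ← hb]
      field_simp
      ring
    rw [e1]
    have h2 : (∑ x ∈ s.filter (fun x => Z x = 0), w x) * (b / a) ^ 2
        = ∑ x ∈ s.filter (fun x => Z x = 0), w x * (Z x - b / a) ^ 2 := by
      rw [Finset.sum_mul]
      refine Finset.sum_congr rfl (fun x hx => ?_)
      rw [(Finset.mem_filter.1 hx).2]
      ring
    rw [h2]
    exact Finset.sum_le_sum_of_subset_of_nonneg (Finset.filter_subset _ _)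
      (fun x _ _ => mul_nonneg (hw x) (sq_nonneg _))

/-- sums over cells -/
lemma fib {X : Type} [Fintype X] {k : ℕ} (v : X → Fin k → ℕ) (S : Finset (Fin k → ℕ)) (f : X → ℝ) :
    ∑ x ∈ S, ∑ σ ∈ univ.filter (fun σ : X => ∀ i : Fin k, v σ i = x i), f σ
      = ∑ σ ∈ univ.filter (fun σ : X => v σ ∈ S), f σ := by
  simp only [Finset.sum_filter]
  rw [Finset.sum_comm]
  refine Finset.sum_congr rfl (fun σ _ => ?_)
  have h : ∀ x : Fin k → ℕ, (∀ i : Fin k, v σ i = x i) ↔ v σ = x := fun x => funext_iff.symm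
  simp only [h]
  rw [Finset.sum_ite_eq]

lemma po_pos {θ : ℝ} (h : 0 < θ) (x : ℕ) : 0 < po θ x := by
  unfold po; positivity

lemma po_nonneg {θ : ℝ} (h : 0 ≤ θ) (x : ℕ) : 0 ≤ po θ x := by
  unfold po; positivity

lemma po_zero (θ : ℝ) : po θ 0 = Real.exp (-θ) := by
  unfold po; simp

end SSCX

open Filter Topology SSCX in
theorem p_SSC (h1 : S_poS) : S_SSC := by
  intro α _ w Z N θ θ' R C hw hZ hθ hθ' hθ3 hL hL' hR hlim hC
  -- enough: an eventual bound
  suffices H : ∀ ε : ℝ, 0 < ε → ∀ᶠ m in atTop,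
      ∑ σ ∈ univ.filter (fun σ : α m => Z m σ = 0 ∧ N m 1 σ = 0 ∧ N m 2 σ = 0), w m σ ≤ 5 * ε by
    rw [Metric.tendsto_nhds]
    intro ε hε
    filter_upwards [H (ε / 10) (by positivity)] with m hm
    rw [Real.dist_eq, sub_zero, abs_of_nonneg (Finset.sum_nonneg (fun σ _ => hw m σ))]
    linarith
  intro ε hε
  -- parameters
  set M := Real.exp (θ' 1 + θ' 2 + C) with hM
  have hMpos : 0 < M := Real.exp_pos _
  set τ := ε / M with hτ
  have hτpos : 0 < τ := by positivity
  have hτM : τ * M = ε := by rw [hτ]; field_simp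
  have hk := (hlim.eventually (lt_mem_nhds (show R - ε * τ ^ 2 / 16 < R by
    have : 0 < ε * τ ^ 2 / 16 := by positivity
    linarith))).and (eventually_ge_atTop 3)
  obtain ⟨k, hk1, hk3⟩ := hk.exists
  -- limits in K
  have pos1 : ∀ i : Fin k, 0 < θ ((i : ℕ) + 1) := fun i => hθ _ (by omega)
  have pos2 : ∀ i : Fin k, 0 ≤ θ' ((i : ℕ) + 1) := fun i => hθ' _ (by omega)
  have l1 : Tendsto (fun K : ℕ => ∏ i : Fin k, ∑ x ∈ range (K + 1),
      po (θ' (i + 1)) x ^ 2 / po (θ (i + 1)) x) atTop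
      (𝓝 (Real.exp (∑ i : Fin k, (θ' (i + 1) - θ (i + 1)) ^ 2 / θ (i + 1)))) := by
    rw [Real.exp_sum]
    apply tendsto_finsetProd
    intro i _
    exact ((h1 _ _ (pos1 i) (pos2 i)).1.tendsto_sum_nat).comp (tendsto_add_atTop_nat 1)
  have l2 : Tendsto (fun K : ℕ => ∏ i : Fin k, ∑ x ∈ range (K + 1), po (θ (i + 1)) x) atTop (𝓝 1) := by
    have h := tendsto_finsetProd (univ : Finset (Fin k))
      (fun i _ => ((h1 1 _ one_pos (pos1 i).le).2.tendsto_sum_nat).comp (tendsto_add_atTop_nat 1))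
    simpa using h
  have hK := (l1.eventually (lt_mem_nhds (show R - ε * τ ^ 2 / 8 <
      Real.exp (∑ i : Fin k, (θ' (i + 1) - θ (i + 1)) ^ 2 / θ (i + 1)) by
    have : 0 < ε * τ ^ 2 / 16 := by positivity
    linarith))).and (l2.eventually (lt_mem_nhds (show (1 : ℝ) - ε < 1 by linarith)))
  obtain ⟨K, hK1, hK2⟩ := hK.exists
  -- the sets
  set B : Finset (Fin k → ℕ) := Fintype.piFinset (fun _ : Fin k => range (K + 1)) with hB
  set B' : Finset (Fin k → ℕ) := Fintype.piFinset
    (fun i : Fin k => if (i : ℕ) < 2 then ({0} : Finset ℕ) else range (K + 1)) with hB'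
  set p : (Fin k → ℕ) → ℝ := fun x => ∏ i : Fin k, po (θ (i + 1)) (x i) with hp
  set p' : (Fin k → ℕ) → ℝ := fun x => ∏ i : Fin k, po (θ' (i + 1)) (x i) with hp'
  have hB'B : B' ⊆ B := by
    intro x hx
    rw [hB', Fintype.mem_piFinset] at hx
    rw [hB, Fintype.mem_piFinset]
    intro i
    have := hx i
    by_cases h : (i : ℕ) < 2
    · rw [if_pos h, Finset.mem_singleton] at this
      rw [this]; simp
    · rw [if_neg h] at this
      exact this
  set G := B'.filter (fun x => τ * p x ≤ p' x) with hG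
  set H := B'.filter (fun x => ¬ τ * p x ≤ p' x) with hH
  have hppos : ∀ x, 0 < p x := fun x => Finset.prod_pos (fun i _ => po_pos (pos1 i) _)
  have hp'nn : ∀ x, 0 ≤ p' x := fun x => Finset.prod_nonneg (fun i _ => po_nonneg (pos2 i) _)
  -- cells
  set a : ∀ m, (Fin k → ℕ) → ℝ := fun m x =>
    ∑ σ ∈ univ.filter (fun σ : α m => ∀ i : Fin k, N m (i + 1) σ = x i), w m σ with ha
  set b : ∀ m, (Fin k → ℕ) → ℝ := fun m x =>
    ∑ σ ∈ univ.filter (fun σ : α m => ∀ i : Fin k, N m (i + 1) σ = x i), w m σ * Z m σ with hb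
  set z : ∀ m, (Fin k → ℕ) → ℝ := fun m x =>
    ∑ σ ∈ univ.filter (fun σ : α m => ∀ i : Fin k, N m (i + 1) σ = x i), w m σ * Z m σ ^ 2 with hz
  set a0 : ∀ m, (Fin k → ℕ) → ℝ := fun m x =>
    ∑ σ ∈ (univ.filter (fun σ : α m => ∀ i : Fin k, N m (i + 1) σ = x i)).filter
      (fun σ => Z m σ = 0), w m σ with ha0
  have la : ∀ x, Tendsto (fun m => a m x) atTop (𝓝 (p x)) := fun x => hL k x
  have lb : ∀ x, Tendsto (fun m => b m x) atTop (𝓝 (p' x)) := fun x => hL' k x
  have lall : Tendsto (fun m => ∑ σ : α m, w m σ) atTop (𝓝 1) := by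
    have h := hL 0 (fun _ => 0)
    simpa using h
  have keyx : ∀ m x, a0 m x * (b m x / a m x) ^ 2 ≤ z m x - b m x ^ 2 / a m x := by
    intro m x
    exact key _ (w m) (Z m) (hw m)
  -- T1
  have T1 : ∀ᶠ m in atTop, ∑ x ∈ G, a0 m x ≤ ε := by
    have c1 : ∀ᶠ m in atTop, ∀ x ∈ G, 0 < a m x ∧ τ / 2 ≤ b m x / a m x := by
      rw [Filter.eventually_all_finset]
      intro x hx
      have hx' := (Finset.mem_filter.1 hx).2
      have e1 : ∀ᶠ m in atTop, 0 < a m x := (la x).eventually (lt_mem_nhds (hppos x))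
      have e2 : Tendsto (fun m => b m x / a m x) atTop (𝓝 (p' x / p x)) :=
        (lb x).div (la x) (hppos x).ne'
      have e3 : τ ≤ p' x / p x := by
        rw [le_div_iff₀ (hppos x)]; exact hx'
      have e4 : ∀ᶠ m in atTop, τ / 2 < b m x / a m x := e2.eventually (lt_mem_nhds (by linarith))
      filter_upwards [e1, e4] with m h1 h2 using ⟨h1, h2.le⟩
    have c2 : Tendsto (fun m => ∑ x ∈ B, b m x ^ 2 / a m x) atTop (𝓝 (∑ x ∈ B, p' x ^ 2 / p x)) := by
      apply tendsto_finsetSum
      intro x _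
      exact ((lb x).pow 2).div (la x) (hppos x).ne'
    have c3 : ∑ x ∈ B, p' x ^ 2 / p x = ∏ i : Fin k, ∑ x ∈ range (K + 1),
        po (θ' (i + 1)) x ^ 2 / po (θ (i + 1)) x := by
      rw [Finset.prod_univ_sum]
      refine Finset.sum_congr rfl (fun x _ => ?_)
      rw [hp, hp']
      simp only
      rw [← Finset.prod_pow, ← Finset.prod_div_distrib]
    have c4 : ∀ᶠ m in atTop, R - ε * τ ^ 2 / 8 - ε * τ ^ 2 / 32 < ∑ x ∈ B, b m x ^ 2 / a m x := by
      apply c2.eventually
      apply lt_mem_nhds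
      rw [c3]
      have : 0 < ε * τ ^ 2 / 32 := by positivity
      linarith
    have c5 := hR (ε * τ ^ 2 / 32) (by positivity)
    filter_upwards [c1, c4, c5] with m h1 h4 h5
    have d1 : (τ / 2) ^ 2 * ∑ x ∈ G, a0 m x ≤ ∑ x ∈ G, (z m x - b m x ^ 2 / a m x) := by
      rw [Finset.mul_sum]
      refine Finset.sum_le_sum (fun x hx => ?_)
      obtain ⟨u1, u2⟩ := h1 x hx
      have u3 : 0 ≤ a0 m x := Finset.sum_nonneg (fun σ _ => hw m σ)
      calc (τ / 2) ^ 2 * a0 m x = a0 m x * (τ / 2) ^ 2 := by ring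
        _ ≤ a0 m x * (b m x / a m x) ^ 2 := by
            apply mul_le_mul_of_nonneg_left _ u3
            exact pow_le_pow_left₀ (by positivity) u2 2
        _ ≤ _ := keyx m x
    have d2 : ∑ x ∈ G, (z m x - b m x ^ 2 / a m x) ≤ ∑ x ∈ B, (z m x - b m x ^ 2 / a m x) := by
      apply Finset.sum_le_sum_of_subset_of_nonneg
      · exact (Finset.filter_subset _ _).trans hB'B
      · intro x _ _
        have u3 : 0 ≤ a0 m x := Finset.sum_nonneg (fun σ _ => hw m σ)
        exact le_trans (mul_nonneg u3 (sq_nonneg _)) (keyx m x)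
    have d3 : ∑ x ∈ B, z m x ≤ ∑ σ : α m, w m σ * Z m σ ^ 2 := by
      have := fib (fun σ : α m => fun i : Fin k => N m (i + 1) σ) B (fun σ => w m σ * Z m σ ^ 2)
      rw [hz]
      simp only
      rw [this]
      exact Finset.sum_le_sum_of_subset_of_nonneg (Finset.filter_subset _ _)
        (fun σ _ _ => mul_nonneg (hw m σ) (sq_nonneg _))
    have d5 : ∑ x ∈ B, (z m x - b m x ^ 2 / a m x) = ∑ x ∈ B, z m x - ∑ x ∈ B, b m x ^ 2 / a m x :=
      Finset.sum_sub_distrib _ _
    have d4 : (τ / 2) ^ 2 * ∑ x ∈ G, a0 m x ≤ (τ / 2) ^ 2 * ε := by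
      have : (τ / 2) ^ 2 * ε = ε * τ ^ 2 / 4 := by ring
      have h8 : ε * τ ^ 2 / 8 + ε * τ ^ 2 / 32 + ε * τ ^ 2 / 32 ≤ ε * τ ^ 2 / 4 := by
        have : 0 < ε * τ ^ 2 := by positivity
        linarith
      linarith [d1, d2, d3, d5, h4, h5]
    exact le_of_mul_le_mul_left d4 (by positivity)
  -- T2
  have T2 : ∀ᶠ m in atTop, ∑ x ∈ H, a m x ≤ 2 * ε := by
    have c1 : Tendsto (fun m => ∑ x ∈ H, a m x) atTop (𝓝 (∑ x ∈ H, p x)) :=
      tendsto_finsetSum _ (fun x _ => la x)
    have c2 : ∑ x ∈ H, p x ≤ ε := by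
      have hp'pos : ∀ x ∈ B', 0 < p' x := by
        intro x hx
        rw [hB', Fintype.mem_piFinset] at hx
        apply Finset.prod_pos
        intro i _
        have := hx i
        by_cases h : (i : ℕ) < 2
        · rw [if_pos h, Finset.mem_singleton] at this
          rw [this, po_zero]
          exact Real.exp_pos _
        · exact po_pos (hθ3 _ (by omega)) _
      have e1 : ∑ x ∈ H, p x ≤ ∑ x ∈ H, τ * (p x ^ 2 / p' x) := by
        refine Finset.sum_le_sum (fun x hx => ?_)
        obtain ⟨u1, u2⟩ := Finset.mem_filter.1 hx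
        have u3 := hp'pos x u1
        push Not at u2
        rw [mul_div_assoc', le_div_iff₀ u3]
        have := hppos x
        nlinarith
      have e2 : ∑ x ∈ H, τ * (p x ^ 2 / p' x) ≤ ∑ x ∈ B', τ * (p x ^ 2 / p' x) := by
        apply Finset.sum_le_sum_of_subset_of_nonneg (Finset.filter_subset _ _)
        intro x hx _
        have := hp'pos x hx
        positivity
      have e3 : ∑ x ∈ B', τ * (p x ^ 2 / p' x) = τ * ∏ i : Fin k,
          ∑ x ∈ (if (i : ℕ) < 2 then ({0} : Finset ℕ) else range (K + 1)),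
            po (θ (i + 1)) x ^ 2 / po (θ' (i + 1)) x := by
        rw [← Finset.mul_sum, Finset.prod_univ_sum]
        congr 1
        refine Finset.sum_congr rfl (fun x _ => ?_)
        rw [hp, hp']
        simp only
        rw [← Finset.prod_pow, ← Finset.prod_div_distrib]
      have e4 : ∏ i : Fin k,
          ∑ x ∈ (if (i : ℕ) < 2 then ({0} : Finset ℕ) else range (K + 1)),
            po (θ (i + 1)) x ^ 2 / po (θ' (i + 1)) x ≤
          ∏ i : Fin k, Real.exp (if (i : ℕ) < 2 then θ' (i + 1)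
            else (θ (i + 1) - θ' (i + 1)) ^ 2 / θ' (i + 1)) := by
        apply Finset.prod_le_prod
        · intro i _
          apply Finset.sum_nonneg
          intro x _
          exact div_nonneg (sq_nonneg _) (po_nonneg (pos2 i) _)
        · intro i _
          by_cases h : (i : ℕ) < 2
          · rw [if_pos h, if_pos h, Finset.sum_singleton, po_zero, po_zero, div_le_iff₀ (Real.exp_pos _),
              ← Real.exp_nat_mul, ← Real.exp_add]
            apply Real.exp_le_exp.2
            have := pos1 i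
            push_cast
            linarith
          · rw [if_neg h, if_neg h]
            have := (h1 (θ' (i + 1)) (θ (i + 1)) (hθ3 _ (by omega)) (pos1 i).le).1
            exact sum_le_hasSum _ (fun x _ => div_nonneg (sq_nonneg _) (po_nonneg (pos2 i) _)) this
      have e5 : ∏ i : Fin k, Real.exp (if (i : ℕ) < 2 then θ' (i + 1)
            else (θ (i + 1) - θ' (i + 1)) ^ 2 / θ' (i + 1)) ≤ M := by
        rw [← Real.exp_sum, hM]
        apply Real.exp_le_exp.2
        rw [Fin.sum_univ_eq_sum_range (fun i => if i < 2 then θ' (i + 1)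
            else (θ (i + 1) - θ' (i + 1)) ^ 2 / θ' (i + 1)) k]
        have : range k = range 2 ∪ Ico 2 k := by
          ext x
          simp only [Finset.mem_range, Finset.mem_union, Finset.mem_Ico]
          omega
        rw [this, Finset.sum_union]
        · rw [Finset.sum_range_succ, Finset.sum_range_succ, Finset.sum_range_zero]
          have e6 : ∑ x ∈ Ico 2 k, (if x < 2 then θ' (x + 1)
              else (θ (x + 1) - θ' (x + 1)) ^ 2 / θ' (x + 1))
              = ∑ x ∈ Ico 3 (k + 1), (θ x - θ' x) ^ 2 / θ' x := by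
            rw [Finset.sum_Ico_eq_sum_range, Finset.sum_Ico_eq_sum_range]
            have : k + 1 - 3 = k - 2 := by omega
            rw [this]
            refine Finset.sum_congr rfl (fun x _ => ?_)
            rw [if_neg (by omega)]
            have : 2 + x + 1 = 3 + x := by omega
            rw [this]
          rw [e6]
          have := hC (k + 1)
          norm_num
          linarith
        · rw [Finset.disjoint_left]
          intro x hx hx'
          rw [Finset.mem_range] at hx
          rw [Finset.mem_Ico] at hx'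
          omega
      calc ∑ x ∈ H, p x ≤ _ := e1
        _ ≤ _ := e2
        _ = _ := e3
        _ ≤ τ * M := mul_le_mul_of_nonneg_left (e4.trans e5) hτpos.le
        _ = ε := hτM
    have c3 : ∑ x ∈ H, p x < 2 * ε := by linarith
    filter_upwards [c1.eventually (gt_mem_nhds c3)] with m hm using hm.le
  -- T3
  have T3 : ∀ᶠ m in atTop, (∑ σ : α m, w m σ) - ∑ x ∈ B, a m x ≤ 2 * ε := by
    have c1 : Tendsto (fun m => (∑ σ : α m, w m σ) - ∑ x ∈ B, a m x) atTop
        (𝓝 (1 - ∑ x ∈ B, p x)) := lall.sub (tendsto_finsetSum _ (fun x _ => la x))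
    have c2 : ∑ x ∈ B, p x = ∏ i : Fin k, ∑ x ∈ range (K + 1), po (θ (i + 1)) x := by
      rw [Finset.prod_univ_sum]
    have c3 : 1 - ∑ x ∈ B, p x < 2 * ε := by rw [c2]; linarith
    filter_upwards [c1.eventually (gt_mem_nhds c3)] with m hm using hm.le
  filter_upwards [T1, T2, T3] with m t1 t2 t3
  -- final decomposition
  have f1 := fib (fun σ : α m => fun i : Fin k => N m (i + 1) σ) G
    (fun σ => if Z m σ = 0 then w m σ else 0)
  have f2 := fib (fun σ : α m => fun i : Fin k => N m (i + 1) σ) H (fun σ => w m σ)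
  have f3 := fib (fun σ : α m => fun i : Fin k => N m (i + 1) σ) B (fun σ => w m σ)
  have g1 : ∑ x ∈ G, a0 m x = ∑ σ ∈ univ.filter
      (fun σ : α m => (fun i : Fin k => N m (i + 1) σ) ∈ G), (if Z m σ = 0 then w m σ else 0) := by
    rw [← f1, ha0]
    refine Finset.sum_congr rfl (fun x _ => ?_)
    simp only
    rw [Finset.sum_filter]
  have g2 : ∑ x ∈ H, a m x = ∑ σ ∈ univ.filter
      (fun σ : α m => (fun i : Fin k => N m (i + 1) σ) ∈ H), w m σ := by
    rw [← f2]
  have g3 : ∑ x ∈ B, a m x = ∑ σ ∈ univ.filter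
      (fun σ : α m => (fun i : Fin k => N m (i + 1) σ) ∈ B), w m σ := by
    rw [← f3]
  rw [g1, Finset.sum_filter] at t1
  rw [g2, Finset.sum_filter] at t2
  rw [g3, Finset.sum_filter, ← Finset.sum_sub_distrib] at t3
  have main : ∑ σ ∈ univ.filter (fun σ : α m => Z m σ = 0 ∧ N m 1 σ = 0 ∧ N m 2 σ = 0), w m σ ≤
      (∑ σ : α m, if (fun i : Fin k => N m (i + 1) σ) ∈ G then (if Z m σ = 0 then w m σ else 0) else 0)
      + (∑ σ : α m, if (fun i : Fin k => N m (i + 1) σ) ∈ H then w m σ else 0)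
      + ∑ σ : α m, (w m σ - if (fun i : Fin k => N m (i + 1) σ) ∈ B then w m σ else 0) := by
    rw [← Finset.sum_add_distrib, ← Finset.sum_add_distrib, Finset.sum_filter]
    refine Finset.sum_le_sum (fun σ _ => ?_)
    have hwσ := hw m σ
    have n1 : 0 ≤ (if (fun i : Fin k => N m (i + 1) σ) ∈ G then (if Z m σ = 0 then w m σ else 0) else 0) := by
      split_ifs <;> linarith
    have n2 : 0 ≤ (if (fun i : Fin k => N m (i + 1) σ) ∈ H then w m σ else 0) := by
      split_ifs <;> linarith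
    have n3 : 0 ≤ (w m σ - if (fun i : Fin k => N m (i + 1) σ) ∈ B then w m σ else 0) := by
      split_ifs <;> linarith
    by_cases hc : Z m σ = 0 ∧ N m 1 σ = 0 ∧ N m 2 σ = 0
    · rw [if_pos hc]
      by_cases hb1 : (fun i : Fin k => N m (i + 1) σ) ∈ B
      · have hb2 : (fun i : Fin k => N m (i + 1) σ) ∈ B' := by
          rw [hB, Fintype.mem_piFinset] at hb1
          rw [hB', Fintype.mem_piFinset]
          intro i
          by_cases h : (i : ℕ) < 2
          · rw [if_pos h, Finset.mem_singleton]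
            have : (i : ℕ) = 0 ∨ (i : ℕ) = 1 := by omega
            rcases this with h | h
            · simp only [h]
              exact hc.2.1
            · simp only [h]
              exact hc.2.2
          · rw [if_neg h]
            exact hb1 i
        by_cases hg : τ * p (fun i : Fin k => N m (i + 1) σ) ≤ p' (fun i : Fin k => N m (i + 1) σ)
        · have : (fun i : Fin k => N m (i + 1) σ) ∈ G := Finset.mem_filter.2 ⟨hb2, hg⟩
          rw [if_pos this, if_pos hc.1]
          linarith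
        · have : (fun i : Fin k => N m (i + 1) σ) ∈ H := Finset.mem_filter.2 ⟨hb2, hg⟩
          rw [if_pos this]
          linarith
      · rw [if_neg hb1]
        linarith
    · rw [if_neg hc]
      linarith
  linarith

end Pool.Agent.ALM
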