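import Pool.Agent.Lib.MP_fc2a59_co.ALM.P.Stm

set_option autoImplicit false

namespace Pool.Agent.ALM

open Finset
open scoped Classical

namespace bonX

lemma alt_sum (d : ℕ) : ∀ L : ℕ,
    ∑ l ∈ range (L + 1), (-1 : ℝ) ^ l * (((d + 1).choose l : ℕ) : ℝ) = (-1) ^ L * ((d.choose L : ℕ) : ℝ) := by
  intro L
  induction L with
  | zero => simp
  | succ L ih =>
    rw [Finset.sum_range_succ, ih, Nat.choose_succ_succ]
    push_cast
    ring

lemma term (x d l : ℕ) :
    (((x + d).choose (x + l) : ℕ) : ℝ) * (((x + l).choose l : ℕ) : ℝ) =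
      (((x + d).choose x : ℕ) : ℝ) * ((d.choose l : ℕ) : ℝ) := by
  rcases Nat.lt_or_ge d l with h | h
  · have h1 : (x + d).choose (x + l) = 0 := Nat.choose_eq_zero_of_lt (by omega)
    have h2 : d.choose l = 0 := Nat.choose_eq_zero_of_lt h
    rw [h1, h2]
    simp
  · have h1 : (x + l).choose l = (x + l).choose x := by
      rw [Nat.choose_symm_add]
    have h2 := Nat.choose_mul (n := x + d) (k := x + l) (s := x) (by omega)
    rw [h1]
    have h3 : x + d - x = d := by omega
    have h4 : x + l - x = l := by omega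
    rw [h3, h4] at h2
    exact_mod_cast h2

end bonX

theorem p_bon : S_bon := by
  intro L n x
  rcases Nat.lt_or_ge n x with h | h
  · have h1 : bo L n x = 0 := by
      unfold bo
      apply Finset.sum_eq_zero
      intro l _
      have : n.choose (x + l) = 0 := Nat.choose_eq_zero_of_lt (by omega)
      rw [this]
      simp
    have h2 : n ≠ x := by omega
    rw [h1, if_neg h2]
    simp
    positivity
  · obtain ⟨d, rfl⟩ := Nat.exists_eq_add_of_le h
    have hbo : bo L (x + d) x =
        (((x + d).choose x : ℕ) : ℝ) * ∑ l ∈ range L, (-1 : ℝ) ^ l * ((d.choose l : ℕ) : ℝ) := by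
      unfold bo
      rw [Finset.mul_sum]
      apply Finset.sum_congr rfl
      intro l _
      rw [mul_assoc, bonX.term]
      ring
    rw [hbo, bonX.term]
    rcases Nat.eq_zero_or_pos d with rfl | hd
    · rcases Nat.eq_zero_or_pos L with rfl | hL
      · simp
      · obtain ⟨M, rfl⟩ := Nat.exists_eq_add_of_le' hL
        have : ∑ l ∈ range (M + 1), (-1 : ℝ) ^ l * (((0 : ℕ).choose l : ℕ) : ℝ) = 1 := by
          rw [Finset.sum_range_succ']
          simp
        rw [this]
        simp
    · obtain ⟨e, rfl⟩ := Nat.exists_eq_add_of_le' hd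
      have h2 : x + (e + 1) ≠ x := by omega
      rw [if_neg h2, zero_sub, abs_neg, abs_mul, Nat.abs_cast]
      apply mul_le_mul_of_nonneg_left _ (Nat.cast_nonneg _)
      rcases Nat.eq_zero_or_pos L with rfl | hL
      · simp
      · obtain ⟨M, rfl⟩ := Nat.exists_eq_add_of_le' hL
        rw [bonX.alt_sum, abs_mul, abs_pow, abs_neg, abs_one, one_pow, one_mul, Nat.abs_cast]
        have : e.choose M ≤ (e + 1).choose (M + 1) := by
          rw [Nat.choose_succ_succ]
          omega
        exact_mod_cast this

end Pool.Agent.ALM
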