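import Pool.Agent.Lib.MP_fc2a59_co.ALM.P.Stm

set_option autoImplicit false

namespace Pool.Agent.ALM

open Finset
open scoped Classical

theorem poSX_hasSum (c : ℝ) : HasSum (fun x : ℕ => c ^ x / (x.factorial : ℝ)) (Real.exp c) := by
  have h := NormedSpace.expSeries_div_hasSum_exp (𝔸 := ℝ) c
  rwa [← Real.exp_eq_exp_ℝ] at h

theorem p_poS : S_poS := by
  intro θ θ' hθ hθ'
  constructor
  · have h := (poSX_hasSum (θ' ^ 2 / θ)).mul_left (Real.exp (θ - 2 * θ'))
    have e1 : Real.exp (θ - 2 * θ') * Real.exp (θ' ^ 2 / θ) = Real.exp ((θ' - θ) ^ 2 / θ) := by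
      rw [← Real.exp_add]
      congr 1
      field_simp
      ring
    rw [e1] at h
    have hfun : (fun x : ℕ => po θ' x ^ 2 / po θ x) =
        fun x : ℕ => Real.exp (θ - 2 * θ') * ((θ' ^ 2 / θ) ^ x / (x.factorial : ℝ)) := by
      funext x
      have hf : (x.factorial : ℝ) ≠ 0 := Nat.cast_ne_zero.2 (Nat.factorial_ne_zero x)
      have hθx : θ ^ x ≠ 0 := (pow_pos hθ x).ne'
      have e2 : Real.exp (θ - 2 * θ') = Real.exp (-θ') ^ 2 / Real.exp (-θ) := by
        rw [eq_div_iff (Real.exp_pos _).ne', ← Real.exp_add, ← Real.exp_nat_mul]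
        congr 1
        push_cast
        ring
      rw [e2, div_pow, po, po]
      have h3 := (Real.exp_pos (-θ)).ne'
      field_simp
      rw [← pow_mul, ← pow_mul, mul_comm]
    rw [hfun]
    exact h
  · have h := (poSX_hasSum θ').mul_left (Real.exp (-θ'))
    have e1 : Real.exp (-θ') * Real.exp θ' = 1 := by
      rw [← Real.exp_add]; simp
    rw [e1] at h
    have hfun : (fun x : ℕ => po θ' x) =
        fun x : ℕ => Real.exp (-θ') * (θ' ^ x / (x.factorial : ℝ)) := by
      funext x
      rw [po]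
      ring
    rw [hfun]
    exact h

end Pool.Agent.ALM
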