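import Pool.Agent.Lib.MP_fc2a59_co.ALM.P.Stm

set_option autoImplicit false

namespace Pool.Agent.ALM

open Finset
open scoped Classical

namespace P4sX

/-- the complex number `w` -/
noncomputable def w : ℂ := ⟨3 / 4, Real.sqrt 7 / 4⟩

theorem w_sq : w ^ 2 = (3 / 2 : ℝ) * w - 1 := by
  have h7 : Real.sqrt 7 * Real.sqrt 7 = 7 := Real.mul_self_sqrt (by norm_num)
  apply Complex.ext
  · simp only [w, pow_two, Complex.mul_re, Complex.sub_re, Complex.ofReal_re, Complex.ofReal_im,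
      Complex.one_re]
    nlinarith [h7]
  · simp only [w, pow_two, Complex.mul_im, Complex.sub_im, Complex.ofReal_re, Complex.ofReal_im,
      Complex.one_im]
    ring

theorem sq_eq : ∀ n : ℕ, sq n = 2 * (w ^ n).re ∧ sq (n + 1) = 2 * (w ^ (n + 1)).re := by
  intro n
  induction n with
  | zero =>
    refine ⟨by simp [sq], ?_⟩
    simp [sq, w]; norm_num
  | succ n ih =>
    refine ⟨ih.2, ?_⟩
    have h : w ^ (n + 1 + 1) = (3 / 2 : ℝ) * w ^ (n + 1) - w ^ n := by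
      have : w ^ (n + 1 + 1) = w ^ n * w ^ 2 := by ring
      rw [this, w_sq]; ring
    show 3 / 2 * sq (n + 1) - sq n = _
    rw [ih.1, ih.2, h, Complex.sub_re, Complex.re_ofReal_mul]
    ring

theorem normSq_w : Complex.normSq w = 1 := by
  have h7 : Real.sqrt 7 * Real.sqrt 7 = 7 := Real.mul_self_sqrt (by norm_num)
  simp only [w, Complex.normSq_apply]
  nlinarith [h7]

theorem norm_w : ‖w‖ = 1 := by
  rw [Complex.norm_def, normSq_w, Real.sqrt_one]

/-- `s_n ^ 2 = s_(2n) + 2` -/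
theorem sq_sq (n : ℕ) : sq n ^ 2 = sq (2 * n) + 2 := by
  rw [(sq_eq n).1, (sq_eq (2 * n)).1]
  have h1 : Complex.normSq (w ^ n) = 1 := by rw [map_pow, normSq_w, one_pow]
  have h2 : w ^ (2 * n) = w ^ n * w ^ n := by ring
  rw [Complex.normSq_apply] at h1
  rw [h2, Complex.mul_re]
  nlinarith [h1]

/-- real part of the logarithm series -/
theorem re_series (z : ℂ) (hz : ‖z‖ < 1) :
    HasSum (fun i : ℕ => (z ^ (i + 1)).re / (i + 1)) (-Real.log ‖1 - z‖) := by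
  have h := Complex.hasSum_taylorSeries_neg_log hz
  have h2 : HasSum (fun n : ℕ => ((z ^ n / n : ℂ)).re) ((-Complex.log (1 - z)).re) :=
    Complex.hasSum_re h
  rw [Complex.neg_re, Complex.log_re] at h2
  have h3 := (hasSum_nat_add_iff' (f := fun n : ℕ => ((z ^ n / n : ℂ)).re) 1).mpr h2
  simp only [range_one, sum_singleton, Nat.cast_zero, div_zero, Complex.zero_re, sub_zero] at h3
  have h4 : (fun i : ℕ => (z ^ (i + 1)).re / ((i : ℝ) + 1)) =
      fun n : ℕ => ((z ^ (n + 1) / ((n + 1 : ℕ) : ℂ) : ℂ)).re := by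
    funext i
    have : ((i + 1 : ℕ) : ℂ) = (((i : ℝ) + 1 : ℝ) : ℂ) := by push_cast; ring
    rw [this, Complex.div_ofReal_re]
  rw [h4]
  exact h3

/-- series with `s_i` -/
theorem sq_series (r : ℝ) (h0 : 0 ≤ r) (h1 : r < 1) :
    HasSum (fun i : ℕ => sq (i + 1) * r ^ (i + 1) / (2 * ((i : ℝ) + 1)))
      (-(1 / 2) * Real.log (1 - 3 / 2 * r + r ^ 2)) := by
  have hz : ‖(r : ℂ) * w‖ < 1 := by
    rw [norm_mul, norm_w, mul_one, Complex.norm_real, Real.norm_eq_abs, abs_of_nonneg h0]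
    exact h1
  have h := re_series _ hz
  have hn : ‖1 - (r : ℂ) * w‖ = Real.sqrt (1 - 3 / 2 * r + r ^ 2) := by
    rw [Complex.norm_def]
    congr 1
    have h7 : Real.sqrt 7 * Real.sqrt 7 = 7 := Real.mul_self_sqrt (by norm_num)
    simp only [w, Complex.normSq_apply, Complex.sub_re, Complex.sub_im, Complex.mul_re,
      Complex.mul_im, Complex.ofReal_re, Complex.ofReal_im, Complex.one_re, Complex.one_im]
    nlinarith [h7]
  have hp : (0 : ℝ) ≤ 1 - 3 / 2 * r + r ^ 2 := by nlinarith [sq_nonneg (r - 3 / 4)]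
  rw [hn, Real.log_sqrt hp] at h
  have e : -(Real.log (1 - 3 / 2 * r + r ^ 2) / 2) =
      -(1 / 2) * Real.log (1 - 3 / 2 * r + r ^ 2) := by ring
  rw [e] at h
  have h4 : (fun i : ℕ => sq (i + 1) * r ^ (i + 1) / (2 * ((i : ℝ) + 1))) =
      fun i : ℕ => (((r : ℂ) * w) ^ (i + 1)).re / ((i : ℝ) + 1) := by
    funext i
    rw [mul_pow, ← Complex.ofReal_pow, Complex.re_ofReal_mul, (sq_eq i).2]
    have : (i : ℝ) + 1 ≠ 0 := by positivity
    field_simp
  rw [h4]; exact h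

/-- series with `s_(2i)` -/
theorem sq2_series (r : ℝ) (h0 : 0 ≤ r) (h1 : r < 1) :
    HasSum (fun i : ℕ => sq (2 * (i + 1)) * r ^ (i + 1) / (2 * ((i : ℝ) + 1)))
      (-(1 / 2) * Real.log (1 - 1 / 4 * r + r ^ 2)) := by
  have hz : ‖(r : ℂ) * w ^ 2‖ < 1 := by
    rw [norm_mul, norm_pow, norm_w, one_pow, mul_one, Complex.norm_real, Real.norm_eq_abs,
      abs_of_nonneg h0]
    exact h1
  have h := re_series _ hz
  have hn : ‖1 - (r : ℂ) * w ^ 2‖ = Real.sqrt (1 - 1 / 4 * r + r ^ 2) := by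
    rw [Complex.norm_def]
    congr 1
    have h7 : Real.sqrt 7 * Real.sqrt 7 = 7 := Real.mul_self_sqrt (by norm_num)
    rw [w_sq]
    simp only [w, Complex.normSq_apply, Complex.sub_re, Complex.sub_im, Complex.mul_re,
      Complex.mul_im, Complex.ofReal_re, Complex.ofReal_im, Complex.one_re, Complex.one_im]
    nlinarith [h7]
  have hp : (0 : ℝ) ≤ 1 - 1 / 4 * r + r ^ 2 := by nlinarith [sq_nonneg (r - 1 / 8)]
  rw [hn, Real.log_sqrt hp] at h
  have e : -(Real.log (1 - 1 / 4 * r + r ^ 2) / 2) =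
      -(1 / 2) * Real.log (1 - 1 / 4 * r + r ^ 2) := by ring
  rw [e] at h
  have h4 : (fun i : ℕ => sq (2 * (i + 1)) * r ^ (i + 1) / (2 * ((i : ℝ) + 1))) =
      fun i : ℕ => (((r : ℂ) * w ^ 2) ^ (i + 1)).re / ((i : ℝ) + 1) := by
    funext i
    rw [mul_pow, ← Complex.ofReal_pow, Complex.re_ofReal_mul, (sq_eq (2 * (i + 1))).1, ← pow_mul]
    have : (i : ℝ) + 1 ≠ 0 := by positivity
    field_simp
  rw [h4]; exact h

/-- the plain series -/
theorem pl_series (r : ℝ) (h0 : 0 ≤ r) (h1 : r < 1) :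
    HasSum (fun i : ℕ => r ^ (i + 1) / ((i : ℝ) + 1)) (-Real.log (1 - r)) :=
  Real.hasSum_pow_div_log_of_abs_lt_one (by rw [abs_of_nonneg h0]; exact h1)

end P4sX

open P4sX in
theorem p_P4s : S_P4s := by
  unfold S_P4s
  have a1 := (pl_series (1 / 8) (by norm_num) (by norm_num)).mul_left (1 / 2)
  have a2 := sq2_series (1 / 2) (by norm_num) (by norm_num)
  have a3 := (pl_series (1 / 2) (by norm_num) (by norm_num)).mul_left 9
  have a4 := (sq_series (1 / 4) (by norm_num) (by norm_num)).mul_left 2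
  have a5 := (pl_series (1 / 4) (by norm_num) (by norm_num)).mul_left (-4)
  have a6 := (sq_series (1 / 2) (by norm_num) (by norm_num)).mul_left (-8)
  have h := ((((a1.add a2).add a3).add a4).add a5).add a6
  have hs : Real.log Rinf =
      1 / 2 * -Real.log (1 - 1 / 8) + -(1 / 2) * Real.log (1 - 1 / 4 * (1 / 2) + (1 / 2) ^ 2) +
        9 * -Real.log (1 - 1 / 2) + 2 * (-(1 / 2) * Real.log (1 - 3 / 2 * (1 / 4) + (1 / 4) ^ 2)) +
        -4 * -Real.log (1 - 1 / 4) + -8 * (-(1 / 2) * Real.log (1 - 3 / 2 * (1 / 2) + (1 / 2) ^ 2)) := by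
    have e1 : (1 - 1 / 8 : ℝ) = 7 / 2 ^ 3 := by norm_num
    have e2 : (1 - 1 / 4 * (1 / 2) + (1 / 2) ^ 2 : ℝ) = 3 ^ 2 / 2 ^ 3 := by norm_num
    have e3 : (1 - 1 / 2 : ℝ) = 1 / 2 := by norm_num
    have e4 : (1 - 3 / 2 * (1 / 4) + (1 / 4) ^ 2 : ℝ) = 11 / 2 ^ 4 := by norm_num
    have e5 : (1 - 1 / 4 : ℝ) = 3 / 2 ^ 2 := by norm_num
    have e6 : (1 - 3 / 2 * (1 / 2) + (1 / 2) ^ 2 : ℝ) = 1 / 2 := by norm_num
    rw [e1, e2, e3, e4, e5, e6]
    have hr : Rinf = 2 ^ 4 * 3 ^ 3 / (11 * Real.sqrt 7) := by unfold Rinf; norm_num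
    have s7 : (0 : ℝ) < Real.sqrt 7 := Real.sqrt_pos.mpr (by norm_num)
    rw [hr, Real.log_div (by norm_num) (by positivity), Real.log_mul (by norm_num) (by norm_num),
      Real.log_mul (by norm_num) s7.ne', Real.log_sqrt (by norm_num), Real.log_pow, Real.log_pow,
      Real.log_div (by norm_num) (by norm_num), Real.log_div (by norm_num) (by norm_num),
      Real.log_div (by norm_num) (by norm_num), Real.log_div (by norm_num) (by norm_num),
      Real.log_div (by norm_num) (by norm_num), Real.log_pow, Real.log_pow, Real.log_pow,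
      Real.log_pow, Real.log_one]
    push_cast
    ring
  rw [hs]
  have hf : (fun i : ℕ => (mu (i + 1) - lam (i + 1)) ^ 2 / lam (i + 1)) = fun i : ℕ =>
      1 / 2 * ((1 / 8 : ℝ) ^ (i + 1) / ((i : ℝ) + 1)) +
        sq (2 * (i + 1)) * (1 / 2 : ℝ) ^ (i + 1) / (2 * ((i : ℝ) + 1)) +
        9 * ((1 / 2 : ℝ) ^ (i + 1) / ((i : ℝ) + 1)) +
        2 * (sq (i + 1) * (1 / 4 : ℝ) ^ (i + 1) / (2 * ((i : ℝ) + 1))) +
        -4 * ((1 / 4 : ℝ) ^ (i + 1) / ((i : ℝ) + 1)) +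
        -8 * (sq (i + 1) * (1 / 2 : ℝ) ^ (i + 1) / (2 * ((i : ℝ) + 1))) := by
    funext i
    have hi : (i : ℝ) + 1 ≠ 0 := by positivity
    have h2 : sq (2 * (i + 1)) = sq (i + 1) ^ 2 - 2 := by rw [sq_sq]; ring
    have p8 : (1 / 8 : ℝ) ^ (i + 1) = ((1 / 2 : ℝ) ^ (i + 1)) ^ 3 := by
      rw [← pow_mul, mul_comm, pow_mul]; norm_num
    have p4 : (1 / 4 : ℝ) ^ (i + 1) = ((1 / 2 : ℝ) ^ (i + 1)) ^ 2 := by
      rw [← pow_mul, mul_comm, pow_mul]; norm_num
    have q2 : (2 : ℝ) ^ (i + 1) = ((1 / 2 : ℝ) ^ (i + 1))⁻¹ := by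
      rw [one_div, inv_pow, inv_inv]
    have hx : ((1 / 2 : ℝ) ^ (i + 1)) ≠ 0 := by positivity
    unfold mu lam
    rw [h2, p8, p4, q2]
    push_cast
    generalize (1 / 2 : ℝ) ^ (i + 1) = x at hx ⊢
    generalize sq (i + 1) = s
    field_simp
    ring
  rw [hf]
  exact h

end Pool.Agent.ALM
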